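import Mathlib

/-!
# The measurable Schröder-Bernstein theorem with control of the bijection
-/

set_option autoImplicit false

open Set MeasureTheory

namespace Pool.Agent.Y607.BI

/-- Measurable injections `f, g` of a standard Borel space into itself give a measurable bijection
`h` with `h x = f x` or `g (h x) = x` for all `x`. -/
theorem csb {α : Type} [MeasurableSpace α] [StandardBorelSpace α] [Nonempty α] {f g : α → α}
    (hf : Measurable f) (hfi : Function.Injective f) (hg : Measurable g)
    (hgi : Function.Injective g) :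
    ∃ h : α → α, Measurable h ∧ Function.Bijective h ∧ ∀ x, h x = f x ∨ g (h x) = x := by
  classical
  have hf' : MeasurableEmbedding f := hf.measurableEmbedding hfi
  have hg' : MeasurableEmbedding g := hg.measurableEmbedding hgi
  let F : Set α → Set α := fun A => (g '' (f '' A)ᶜ)ᶜ
  have Fmono : ∀ {A B}, A ⊆ B → F A ⊆ F B := fun h =>
    compl_subset_compl.mpr <| Set.image_mono <| compl_subset_compl.mpr <| Set.image_mono h
  obtain ⟨A, hA, hFA⟩ : ∃ A : Set α, MeasurableSet A ∧ F A = A := by
    let X : ℕ → Set α := fun n => F^[n] univ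
    refine ⟨iInter X, ?_, ?_⟩
    · refine MeasurableSet.iInter fun n ↦ ?_
      induction n with
      | zero => exact MeasurableSet.univ
      | succ n ih =>
        rw [Function.iterate_succ', Function.comp_apply]
        exact (hg'.measurableSet_image' (hf'.measurableSet_image' ih).compl).compl
    apply subset_antisymm
    · apply subset_iInter
      intro n
      cases n
      · exact subset_univ _
      rw [Function.iterate_succ', Function.comp_apply]
      exact Fmono (iInter_subset _ _)
    rintro x hx ⟨y, hy, rfl⟩
    rw [mem_iInter] at hx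
    apply hy
    rw [hf'.injective.injOn.image_iInter_eq]
    rw [mem_iInter]
    intro n
    specialize hx n.succ
    rw [Function.iterate_succ', Function.comp_apply] at hx
    by_contra h
    apply hx
    exact ⟨y, h, rfl⟩
  have hinv : ∀ y, hg'.invFun (g y) = y := hg'.leftInverse_invFun
  have hnot : ∀ x, x ∉ A → ∃ y, y ∉ f '' A ∧ g y = x := by
    intro x hx
    have h1 : x ∈ (F A)ᶜ := by rw [hFA]; exact hx
    simp only [F, compl_compl] at h1
    obtain ⟨y, hy, hyx⟩ := h1
    exact ⟨y, hy, hyx⟩
  have hyes : ∀ y, y ∉ f '' A → g y ∉ A := by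
    intro y hy h
    rw [← hFA] at h
    exact h ⟨y, hy, rfl⟩
  refine ⟨fun x => if x ∈ A then f x else hg'.invFun x,
    Measurable.ite hA hf hg'.measurable_invFun, ⟨?_, ?_⟩, ?_⟩
  · intro x x' h
    simp only at h
    by_cases hx : x ∈ A <;> by_cases hx' : x' ∈ A
    · rw [if_pos hx, if_pos hx'] at h
      exact hfi h
    · rw [if_pos hx, if_neg hx'] at h
      obtain ⟨y, hy, rfl⟩ := hnot x' hx'
      rw [hinv] at h
      exact absurd ⟨x, hx, h⟩ hy
    · rw [if_neg hx, if_pos hx'] at h
      obtain ⟨y, hy, rfl⟩ := hnot x hx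
      rw [hinv] at h
      exact absurd ⟨x', hx', h.symm⟩ hy
    · rw [if_neg hx, if_neg hx'] at h
      obtain ⟨y, hy, rfl⟩ := hnot x hx
      obtain ⟨y', hy', rfl⟩ := hnot x' hx'
      rw [hinv, hinv] at h
      rw [h]
  · intro y
    by_cases hy : y ∈ f '' A
    · obtain ⟨x, hx, rfl⟩ := hy
      exact ⟨x, by simp only [if_pos hx]⟩
    · exact ⟨g y, by simp only [if_neg (hyes y hy)]; exact hinv y⟩
  · intro x
    by_cases hx : x ∈ A
    · left
      simp only [if_pos hx]
    · right
      simp only [if_neg hx]
      obtain ⟨y, hy, rfl⟩ := hnot x hx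
      rw [hinv]

end Pool.Agent.Y607.BI
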