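import Mathlib
import Pool.Agent.TH723.BI.Graph

/-!
# Forests of maximal degree three coding uniformization problems

The code `c` is written on a ray: to the vertex `i` of the ray a leaf is attached if `pat c i`
holds. These caterpillars have degrees at most three, and an injective homomorphism from the
caterpillar of `c` to the one of `c'` exists only if `c = c'`.
-/

set_option autoImplicit false

open Set MeasureTheory TopologicalSpace

namespace Pool.Agent.Y607.BI

open Pool.Agent.TH723.BI (Baire Z acyclic_of_height)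

/-- The positions of the ray to which a leaf is attached: `0, 1, 2`, and `2 ⟨n, m⟩ + 5` if
`c n = m`. -/
def pat (c : Baire) (i : ℕ) : Prop :=
  i < 3 ∨ (5 ≤ i ∧ i % 2 = 1 ∧ c (Nat.unpair (i / 2 - 2)).1 = (Nat.unpair (i / 2 - 2)).2)

theorem pat_two {c : Baire} {i : ℕ} (h : pat c i) (h' : pat c (i + 1)) : i < 2 := by
  rcases h with h | ⟨h1, h2, -⟩ <;> rcases h' with h' | ⟨h1', h2', -⟩ <;> omega

theorem eq_of_pat {c c' : Baire} (h : ∀ i, 5 ≤ i → pat c i → pat c' i) : c' = c := by
  funext n
  have h1 : pat c (2 * Nat.pair n (c n) + 5) := by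
    refine Or.inr ⟨by omega, by omega, ?_⟩
    have : (2 * Nat.pair n (c n) + 5) / 2 - 2 = Nat.pair n (c n) := by omega
    rw [this, Nat.unpair_pair]
  rcases h _ (by omega) h1 with h2 | ⟨-, -, h2⟩
  · omega
  · have : (2 * Nat.pair n (c n) + 5) / 2 - 2 = Nat.pair n (c n) := by omega
    rw [this, Nat.unpair_pair] at h2
    exact h2

/-- Names of blocks: a flag, the code, a witness and the number of the copy. -/
abbrev Blk : Type := Bool × Baire × Z × Baire

/-- The vertex set. -/
abbrev V : Type := Blk × (ℕ × Bool)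

/-- The oriented edges of the caterpillar of `c`: the vertices `(i, false)` form a ray, and the
leaf `(i, true)` is attached to `(i, false)` if `pat c i`. -/
def arr (c : Baire) (k k' : ℕ × Bool) : Prop :=
  (k.2 = false ∧ k'.2 = false ∧ k'.1 = k.1 + 1) ∨
    (k.2 = false ∧ k'.2 = true ∧ k'.1 = k.1 ∧ pat c k.1)

/-- The graph with the blocks `D`. -/
def gr (D : Set Blk) : Set (V × V) :=
  {p | p.1.1 = p.2.1 ∧ p.1.1 ∈ D ∧ (arr p.1.1.2.1 p.1.2 p.2.2 ∨ arr p.1.1.2.1 p.2.2 p.1.2)}

theorem gr_symm {D : Set Blk} {v w : V} (h : (v, w) ∈ gr D) : (w, v) ∈ gr D := by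
  obtain ⟨h1, h2, h3⟩ := h
  refine ⟨h1.symm, ?_, ?_⟩
  · exact h1 ▸ h2
  · have h4 : w.1 = v.1 := h1.symm
    show arr w.1.2.1 w.2 v.2 ∨ arr w.1.2.1 v.2 w.2
    rw [h4]
    exact h3.symm

theorem arr_irrefl (c : Baire) (k : ℕ × Bool) : ¬ arr c k k := by
  rintro (⟨h1, h2, h3⟩ | ⟨h1, h2, h3, h4⟩)
  · omega
  · rw [h1] at h2
    cases h2

theorem gr_irrefl (D : Set Blk) (v : V) : (v, v) ∉ gr D := by
  rintro ⟨h1, h2, h3 | h3⟩
  · exact arr_irrefl _ _ h3
  · exact arr_irrefl _ _ h3

/-- The neighbours of the vertices of the rays. -/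
theorem nbr_ray {D : Set Blk} {b : Blk} {i : ℕ} {w : V} (h : ((b, (i, false)), w) ∈ gr D) :
    w = (b, (i + 1, false)) ∨ (1 ≤ i ∧ w = (b, (i - 1, false))) ∨
      (pat b.2.1 i ∧ w = (b, (i, true))) := by
  obtain ⟨b', k, l⟩ := w
  obtain ⟨h1, h2, h3⟩ := h
  simp only at h1 h2 h3
  subst h1
  rcases h3 with (⟨h4, h5, h6⟩ | ⟨h4, h5, h6, h7⟩) | (⟨h4, h5, h6⟩ | ⟨h4, h5, h6, h7⟩)
  · simp only at h5 h6
    left; rw [h5, h6]
  · simp only at h5 h6 h7
    right; right; exact ⟨h7, by rw [h5, h6]⟩
  · simp only at h4 h6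
    right; left
    refine ⟨by omega, ?_⟩
    rw [h4, show i - 1 = k by omega]
  · simp only at h5
    cases h5

/-- The leaves have at most one neighbour. -/
theorem nbr_leaf {D : Set Blk} {b : Blk} {i : ℕ} {w : V} (h : ((b, (i, true)), w) ∈ gr D) :
    w = (b, (i, false)) := by
  obtain ⟨b', k, l⟩ := w
  obtain ⟨h1, h2, h3⟩ := h
  simp only at h1 h2 h3
  subst h1
  rcases h3 with (⟨h4, h5, h6⟩ | ⟨h4, h5, h6, h7⟩) | (⟨h4, h5, h6⟩ | ⟨h4, h5, h6, h7⟩)
  · cases h4
  · cases h4
  · cases h5
  · simp only at h4 h6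
    rw [h4, h6]

/-- The three possible neighbours of a vertex of a ray. -/
theorem gr_three (D : Set Blk) (v : V) : ∃ w1 w2 w3 : V, ∀ w, (v, w) ∈ gr D →
    w = w1 ∨ w = w2 ∨ w = w3 := by
  obtain ⟨b, i, l⟩ := v
  cases l with
  | false =>
    refine ⟨(b, (i + 1, false)), (b, (i - 1, false)), (b, (i, true)), fun w hw => ?_⟩
    rcases nbr_ray hw with h | ⟨-, h⟩ | ⟨-, h⟩
    · exact Or.inl h
    · exact Or.inr (Or.inl h)
    · exact Or.inr (Or.inr h)
  | true => exact ⟨(b, (i, false)), (b, (i, false)), (b, (i, false)), fun w hw => Or.inl (nbr_leaf hw)⟩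

/-- An injective homomorphism preserves the codes of the blocks. -/
theorem block_of_emb {D D' : Set Blk} {f : V → V} (hf : Function.Injective f)
    (hfe : ∀ v w, (v, w) ∈ gr D → (f v, f w) ∈ gr D') {b : Blk} (hb : b ∈ D) :
    (f (b, (0, false))).1 ∈ D' ∧ (f (b, (0, false))).1.2.1 = b.2.1 := by
  have e1 : ∀ i : ℕ, ((b, (i, false)), (b, (i + 1, false))) ∈ gr D := fun i =>
    ⟨rfl, hb, Or.inl (Or.inl ⟨rfl, rfl, rfl⟩)⟩
  have e2 : ∀ i : ℕ, pat b.2.1 i → ((b, (i, false)), (b, (i, true))) ∈ gr D := fun i hi =>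
    ⟨rfl, hb, Or.inl (Or.inr ⟨rfl, rfl, rfl, hi⟩)⟩
  have hE1 := fun i => hfe _ _ (e1 i)
  have hne : ∀ {k k' : ℕ × Bool}, k ≠ k' → f (b, k) ≠ f (b, k') := by
    intro k k' h h'
    exact h (congrArg Prod.snd (hf h'))
  -- the ray is mapped to a ray
  have hray : ∀ i : ℕ, (f (b, (i, false))).2.2 = false := by
    intro i
    by_contra hcon
    have h1 : (f (b, (i, false))).2.2 = true := by
      cases h : (f (b, (i, false))).2.2
      · exact absurd h hcon
      · rfl
    have h2 : ∀ w, (f (b, (i, false)), w) ∈ gr D' →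
        w = ((f (b, (i, false))).1, ((f (b, (i, false))).2.1, false)) := by
      intro w hw
      apply nbr_leaf (D := D')
      rw [← h1]
      exact hw
    by_cases hi : i = 0
    · subst hi
      have h3 := h2 _ (hE1 0)
      have h4 := h2 _ (hfe _ _ (e2 0 (Or.inl (by omega))))
      exact hne (k := (0 + 1, false)) (k' := (0, true)) (by simp) (h3.trans h4.symm)
    · have h3 := h2 _ (hE1 i)
      have h5 := gr_symm (hE1 (i - 1))
      rw [show i - 1 + 1 = i by omega] at h5
      have h4 := h2 _ h5
      refine hne (k := (i + 1, false)) (k' := (i - 1, false)) ?_ (h3.trans h4.symm)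
      intro h
      have := congrArg Prod.fst h
      simp only at this
      omega
  have hblk : ∀ i : ℕ, (f (b, (i, false))).1 = (f (b, (0, false))).1 := by
    intro i
    induction i with
    | zero => rfl
    | succ i ih => rw [← ih]; exact (hE1 i).1.symm
  set j : ℕ → ℕ := fun i => (f (b, (i, false))).2.1 with hj
  have hw : ∀ i, f (b, (i, false)) = ((f (b, (0, false))).1, (j i, false)) := by
    intro i
    rw [← hblk i]
    apply Prod.ext
    · rfl
    · apply Prod.ext
      · rfl
      · exact hray i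
  have hjinj : ∀ i i', j i = j i' → i = i' := by
    intro i i' h
    have h1 : f (b, (i, false)) = f (b, (i', false)) := by rw [hw i, hw i', h]
    have h2 := congrArg (fun v : V => v.2.1) (hf h1)
    exact h2
  have hstep : ∀ i, j (i + 1) = j i + 1 ∨ j (i + 1) + 1 = j i := by
    intro i
    have h1 := hE1 i
    rw [hw i, hw (i + 1)] at h1
    rcases nbr_ray h1 with h | ⟨h2, h⟩ | ⟨-, h⟩
    · left
      exact congrArg (fun v : V => v.2.1) h
    · right
      have h3 : j (i + 1) = j i - 1 := congrArg (fun v : V => v.2.1) h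
      omega
    · have h3 : false = true := congrArg (fun v : V => v.2.2) h
      cases h3
  have hup : ∀ i, j (i + 1) = j i + 1 := by
    intro i
    rcases hstep i with h | h
    · exact h
    · exfalso
      have key : ∀ t, j (i + t + 1) + 1 = j (i + t) ∧ j (i + t) + t = j i := by
        intro t
        induction t with
        | zero => exact ⟨h, rfl⟩
        | succ t ih =>
          have h1 : j (i + (t + 1)) + (t + 1) = j i := by
            have := ih.1
            have := ih.2
            rw [show i + (t + 1) = i + t + 1 by ring]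
            omega
          refine ⟨?_, h1⟩
          rcases hstep (i + (t + 1)) with h2 | h2
          · exfalso
            have h3 : j (i + (t + 1) + 1) = j (i + t) := by
              rw [h2, show i + (t + 1) = i + t + 1 by ring]
              exact ih.1
            have := hjinj _ _ h3
            omega
          · exact h2
      have := (key (j i + 1)).2
      omega
  have hji : ∀ i, j i = j 0 + i := by
    intro i
    induction i with
    | zero => rfl
    | succ i ih => rw [hup, ih]; ring
  -- the leaves are mapped to leaves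
  have hleaf : ∀ i, 1 ≤ i → pat b.2.1 i → pat (f (b, (0, false))).1.2.1 (j i) := by
    intro i hi hp
    have h1 := hfe _ _ (e2 i hp)
    rw [hw i] at h1
    rcases nbr_ray h1 with h | ⟨-, h⟩ | ⟨h, -⟩
    · exfalso
      have h2 : f (b, (i, true)) = f (b, (i + 1, false)) := by
        rw [hw (i + 1), h, hup]
      exact hne (by simp) h2
    · exfalso
      have h2 : f (b, (i, true)) = f (b, (i - 1, false)) := by
        rw [hw (i - 1), h, hji i, hji (i - 1)]
        congr 3
        omega
      exact hne (by simp) h2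
    · exact h
  have hj0 : j 0 = 0 := by
    have h1 := hleaf 1 le_rfl (Or.inl (by omega))
    have h2 := hleaf 2 (by omega) (Or.inl (by omega))
    rw [hji 1] at h1
    rw [hji 2, show j 0 + 2 = j 0 + 1 + 1 by ring] at h2
    have := pat_two h1 h2
    omega
  refine ⟨?_, ?_⟩
  · exact (hE1 0).2.1
  · apply eq_of_pat
    intro i hi hp
    have h1 := hleaf i (by omega) hp
    rw [hji i, hj0, zero_add] at h1
    exact h1

/-- The height of a vertex. -/
def hgt (v : V) : ℕ := v.2.1 + if v.2.2 = false then 0 else 1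

theorem arr_hgt {c : Baire} {b b' : Blk} {k k' : ℕ × Bool} (h : arr c k k') :
    hgt (b', k') = hgt (b, k) + 1 := by
  unfold hgt
  rcases h with ⟨h1, h2, h3⟩ | ⟨h1, h2, h3, h4⟩
  · simp only [h1, h2, h3, if_true]
  · simp [h1, h2, h3]

theorem arr_parent {c : Baire} {k k' k'' : ℕ × Bool} (h : arr c k k'') (h' : arr c k' k'') :
    k = k' := by
  rcases h with ⟨h1, h2, h3⟩ | ⟨h1, h2, h3, h4⟩ <;>
    rcases h' with ⟨h1', h2', h3'⟩ | ⟨h1', h2', h3', h4'⟩
  · exact Prod.ext (by omega) (h1.trans h1'.symm)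
  · rw [h2] at h2'; cases h2'
  · rw [h2] at h2'; cases h2'
  · exact Prod.ext (by omega) (h1.trans h1'.symm)

/-- The graph is acyclic. -/
theorem gr_acyclic {W : Type} (D : Set Blk) (e : W → V) (he : Function.Injective e) :
    (SimpleGraph.fromRel fun x x' : W => (e x, e x') ∈ gr D).IsAcyclic := by
  have hadj : ∀ u v : W, (SimpleGraph.fromRel fun x x' : W => (e x, e x') ∈ gr D).Adj u v →
      (e u, e v) ∈ gr D := by
    intro u v h
    rw [SimpleGraph.fromRel_adj] at h
    rcases h.2 with h | h
    · exact h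
    · exact gr_symm h
  refine acyclic_of_height _ (fun x => hgt (e x)) ?_ ?_
  · intro u v h
    obtain ⟨h1, h2, h3⟩ := hadj u v h
    rcases h3 with h3 | h3
    · have := arr_hgt (b := (e u).1) (b' := (e v).1) h3
      simp only [Prod.mk.eta] at this
      omega
    · have := arr_hgt (b := (e v).1) (b' := (e u).1) h3
      simp only [Prod.mk.eta] at this
      omega
  · intro v u w hu hw lu lw
    obtain ⟨h1, h2, h3⟩ := hadj v u hu
    obtain ⟨h1', h2', h3'⟩ := hadj v w hw
    have h4 : arr (e v).1.2.1 (e u).2 (e v).2 := by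
      rcases h3 with h3 | h3
      · have := arr_hgt (b := (e v).1) (b' := (e u).1) h3
        simp only [Prod.mk.eta] at this
        omega
      · exact h3
    have h4' : arr (e v).1.2.1 (e w).2 (e v).2 := by
      rcases h3' with h3' | h3'
      · have := arr_hgt (b := (e v).1) (b' := (e w).1) h3'
        simp only [Prod.mk.eta] at this
        omega
      · exact h3'
    apply he
    exact Prod.ext (h1.symm.trans h1') (arr_parent h4 h4')

/-! ### The components -/

/-- The vertices which are not isolated. -/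
def Act (D : Set Blk) : Set V := {v | v.1 ∈ D ∧ (v.2.2 = true → pat v.1.2.1 v.2.1)}

theorem act_of_gr {D : Set Blk} {v w : V} (h : (v, w) ∈ gr D) : v ∈ Act D := by
  obtain ⟨h1, h2, h3⟩ := h
  refine ⟨h2, fun h8 => ?_⟩
  rcases h3 with (⟨h4, h5, h6⟩ | ⟨h4, h5, h6, h7⟩) | (⟨h4, h5, h6⟩ | ⟨h4, h5, h6, h7⟩)
  · rw [h4] at h8; cases h8
  · rw [h4] at h8; cases h8
  · rw [h5] at h8; cases h8
  · rw [h6]; exact h7

open Classical in
/-- The representative of the component of a vertex. -/
noncomputable def rep (D : Set Blk) (v : V) : V := if v ∈ Act D then (v.1, (0, false)) else v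

theorem rep_gr {D : Set Blk} {v w : V} (h : (v, w) ∈ gr D) : rep D v = rep D w := by
  have h1 := act_of_gr h
  have h2 := act_of_gr (gr_symm h)
  have h3 : v.1 = w.1 := h.1
  simp only [rep, h1, h2, if_true, h3]

theorem gen_root {D : Set Blk} {v : V} (h : v ∈ Act D) :
    Relation.EqvGen (fun v w : V => (v, w) ∈ gr D) (v.1, (0, false)) v := by
  obtain ⟨b, k, l⟩ := v
  obtain ⟨hb, hl⟩ := h
  simp only at hb hl
  have hray : Relation.EqvGen (fun v w : V => (v, w) ∈ gr D) (b, (0, false)) (b, (k, false)) := by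
    clear hl
    induction k with
    | zero => exact Relation.EqvGen.refl _
    | succ k ih =>
      refine Relation.EqvGen.trans _ _ _ ih (Relation.EqvGen.rel _ _ ?_)
      exact ⟨rfl, hb, Or.inl (Or.inl ⟨rfl, rfl, rfl⟩)⟩
  cases l with
  | false => exact hray
  | true =>
    refine Relation.EqvGen.trans _ _ _ hray (Relation.EqvGen.rel _ _ ?_)
    exact ⟨rfl, hb, Or.inl (Or.inr ⟨rfl, rfl, rfl, hl rfl⟩)⟩

theorem rep_iff {D : Set Blk} (v w : V) :
    rep D v = rep D w ↔ Relation.EqvGen (fun v w : V => (v, w) ∈ gr D) v w := by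
  constructor
  · intro h
    have hr : ∀ v, Relation.EqvGen (fun v w : V => (v, w) ∈ gr D) (rep D v) v := by
      intro v
      by_cases hv : v ∈ Act D
      · simp only [rep, hv, if_true]
        exact gen_root hv
      · simp only [rep, hv, if_false]
        exact Relation.EqvGen.refl _
    have h1 := hr w
    rw [← h] at h1
    exact Relation.EqvGen.trans _ _ _ (Relation.EqvGen.symm _ _ (hr v)) h1
  · intro h
    induction h with
    | rel v w h => exact rep_gr h
    | refl v => rfl
    | symm v w _ ih => exact ih.symm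
    | trans u v w _ _ ih ih' => exact ih.trans ih'

end Pool.Agent.Y607.BI
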