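import Pool.Agent.TH723.BI.Lower
import Pool.Agent.Y607.BI.Tree
import Pool.Agent.Y607.BI.Csb

/-!
# A single Borel graph whose isomorphism class is `Σ¹₂`-complete
-/

set_option autoImplicit false

open Set MeasureTheory TopologicalSpace

namespace Pool.Agent.Y607.BI

open Pool.Agent.TH723.BI (Baire Z IsCode Sigma12 BorelGraph BorelIso TameForest F z0
  not_countable_cantor exists_tree unif no_unif measurableSet_F exists_code isoRel)

theorem not_countable_baire : ¬ Countable Baire := by
  intro h
  apply not_countable_cantor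
  have hj : Function.Injective fun (s : ℕ → Bool) (n : ℕ) => (s n).toNat := by
    intro s s' h
    funext n
    have h3 : (s n).toNat = (s' n).toNat := congrFun h n
    cases hs : s n <;> cases hs' : s' n <;> rw [hs, hs'] at h3 <;> simp at h3 ⊢
  exact hj.countable

theorem not_countable_ZB : ¬ Countable (Z × Baire) := by
  intro h
  apply not_countable_baire
  have hj : Function.Injective fun c : Baire => ((z0, c) : Z × Baire) := fun c c' h =>
    congrArg Prod.snd h
  exact hj.countable

theorem not_countable_V : ¬ Countable V := by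
  intro h
  apply not_countable_baire
  have hj : Function.Injective fun c : Baire => (((true, c, z0, fun _ => 0), (0, false)) : V) :=
    fun c c' h => congrArg (fun v : V => v.1.2.1) h
  exact hj.countable

/-- The blocks of the fixed graph. -/
def D0 : Set Blk := {b | b.1 = true}

variable {α : Type}

/-- The blocks of the graph of a parameter. -/
def GD (T : α → Baire → Set (List ℕ)) (a : α) : Set Blk :=
  {b | b.1 = true ∧ (a, b.2.1, b.2.2.1) ∈ F T}

/-- Write a bit in front of a sequence. -/
def cons (s : Bool) (y : Baire) : Baire := fun n => if n = 0 then s.toNat else y (n - 1)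

theorem cons_inj {s s' : Bool} {y y' : Baire} (h : cons s y = cons s' y') : s = s' ∧ y = y' := by
  constructor
  · have h1 := congrFun h 0
    simp only [cons, if_true] at h1
    cases s <;> cases s' <;> simp at h1 ⊢
  · funext n
    have h1 := congrFun h (n + 1)
    simpa [cons] using h1

theorem measurable_cons : Measurable fun p : Bool × Baire => cons p.1 p.2 := by
  refine measurable_pi_iff.2 fun n => ?_
  cases n with
  | zero => exact (measurable_of_countable (fun s : Bool => s.toNat)).comp measurable_fst
  | succ n => exact (measurable_pi_apply n).comp measurable_snd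

section perm

open Classical in
/-- The injection given by a uniformization. -/
noncomputable def pf (u : Baire → Z) (κ : Z × Baire → Baire) (b : Blk) : Blk :=
  if b.1 = true then (true, b.2.1, u b.2.1, κ (b.2.2.1, b.2.2.2)) else b

open Classical in
/-- The injection in the other direction. -/
noncomputable def pg (D : Set Blk) (b : Blk) : Blk :=
  if b ∈ D then b else (false, b.2.1, b.2.2.1, cons b.1 b.2.2.2)

theorem pf_inj (u : Baire → Z) {κ : Z × Baire → Baire} (hκ : Function.Injective κ) :
    Function.Injective (pf u κ) := by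
  rintro ⟨s, c, z, y⟩ ⟨s', c', z', y'⟩ h
  cases s <;> cases s' <;> simp only [pf, if_true, reduceCtorEq, if_false, Prod.mk.injEq,
    true_and] at h
  · obtain ⟨rfl, rfl, rfl⟩ := h; rfl
  · exact absurd h.1 (by simp)
  · exact absurd h.1 (by simp)
  · obtain ⟨h1, -, h3⟩ := h
    have h4 := hκ h3
    simp only [Prod.mk.injEq] at h4
    rw [h1, h4.1, h4.2]

theorem pg_inj {D : Set Blk} (hD : ∀ b ∈ D, b.1 = true) : Function.Injective (pg D) := by
  intro b b' h
  unfold pg at h
  split_ifs at h with h1 h2 h2
  · exact h
  · have := hD b h1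
    rw [h] at this
    simp at this
  · have := hD b' h2
    rw [← h] at this
    simp at this
  · simp only [Prod.mk.injEq, true_and] at h
    obtain ⟨h3, h4, h5⟩ := h
    obtain ⟨h6, h7⟩ := cons_inj h5
    exact Prod.ext h6 (Prod.ext h3 (Prod.ext h4 h7))

theorem measurable_pf {u : Baire → Z} (hu : Measurable u) {κ : Z × Baire → Baire}
    (hκ : Measurable κ) : Measurable (pf u κ) := by
  classical
  have m1 : Measurable fun b : Blk => b.1 := measurable_fst
  have m2 : Measurable fun b : Blk => b.2.1 := measurable_fst.comp measurable_snd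
  have m3 : Measurable fun b : Blk => b.2.2 := measurable_snd.comp measurable_snd
  have s1 : MeasurableSet {b : Blk | b.1 = true} := m1 (measurableSet_singleton true)
  exact Measurable.ite s1 (measurable_const.prodMk (m2.prodMk ((hu.comp m2).prodMk (hκ.comp m3))))
    measurable_id

theorem measurable_pg {D : Set Blk} (hD : MeasurableSet D) : Measurable (pg D) := by
  classical
  have m1 : Measurable fun b : Blk => b.1 := measurable_fst
  have m2 : Measurable fun b : Blk => b.2.1 := measurable_fst.comp measurable_snd
  have m3 : Measurable fun b : Blk => b.2.2.1 :=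
    measurable_fst.comp (measurable_snd.comp measurable_snd)
  have m4 : Measurable fun b : Blk => b.2.2.2 :=
    measurable_snd.comp (measurable_snd.comp measurable_snd)
  exact Measurable.ite hD measurable_id
    (measurable_const.prodMk (m2.prodMk (m3.prodMk (measurable_cons.comp (m1.prodMk m4)))))

/-- If there is a uniformization, the blocks of the fixed graph and of the graph of the parameter
correspond to each other. -/
theorem exists_perm {T : α → Baire → Set (List ℕ)} {a : α} (mG : MeasurableSet (GD T a))
    {u : Baire → Z} (hu : Measurable u) (huF : ∀ c, (a, c, u c) ∈ F T) :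
    ∃ π : Blk → Blk, Measurable π ∧ Function.Bijective π ∧ (∀ b, (π b).2.1 = b.2.1) ∧
      ∀ b, b ∈ GD T a ↔ π b ∈ D0 := by
  let κ : Z × Baire ≃ᵐ Baire :=
    PolishSpace.measurableEquivOfNotCountable not_countable_ZB not_countable_baire
  haveI : Nonempty Blk := ⟨(true, (fun _ => 0), z0, fun _ => 0)⟩
  obtain ⟨h, hm, hb, hh⟩ := csb (measurable_pg mG) (pg_inj (D := GD T a) fun b hb => hb.1)
    (measurable_pf hu κ.measurable) (pf_inj u κ.injective)
  have c1 : ∀ b, (pg (GD T a) b).2.1 = b.2.1 := by
    intro b
    unfold pg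
    split_ifs <;> rfl
  have c2 : ∀ b, (pf u κ b).2.1 = b.2.1 := by
    intro b
    unfold pf
    split_ifs <;> rfl
  have d1 : ∀ b, b ∈ GD T a ↔ pg (GD T a) b ∈ D0 := by
    intro b
    unfold pg
    split_ifs with h1
    · exact ⟨fun _ => h1.1, fun _ => h1⟩
    · simp [D0, h1]
  have d2 : ∀ b, b ∈ D0 ↔ pf u κ b ∈ GD T a := by
    intro b
    unfold pf
    split_ifs with h1
    · exact ⟨fun _ => ⟨rfl, huF _⟩, fun _ => h1⟩
    · exact ⟨fun h2 => absurd h2 h1, fun h2 => absurd h2.1 h1⟩
  refine ⟨h, hm, hb, fun b => ?_, fun b => ?_⟩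
  · rcases hh b with h1 | h1
    · rw [h1, c1]
    · conv_rhs => rw [← h1, c2]
  · rcases hh b with h1 | h1
    · rw [h1]; exact d1 b
    · rw [d2 (h b), h1]

/-- A permutation of the blocks respecting the codes induces an isomorphism. -/
theorem gr_iff {D D' : Set Blk} {π : Blk → Blk} (hπ : Function.Injective π)
    (hc : ∀ b, (π b).2.1 = b.2.1) (hD : ∀ b, b ∈ D ↔ π b ∈ D') (v w : V) :
    (v, w) ∈ gr D ↔ ((π v.1, v.2), (π w.1, w.2)) ∈ gr D' := by
  constructor
  · rintro ⟨h1, h2, h3⟩
    refine ⟨congrArg π h1, (hD _).1 h2, ?_⟩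
    show arr (π v.1).2.1 v.2 w.2 ∨ arr (π v.1).2.1 w.2 v.2
    rw [hc]
    exact h3
  · rintro ⟨h1, h2, h3⟩
    refine ⟨hπ h1, (hD _).2 h2, ?_⟩
    change arr (π v.1).2.1 v.2 w.2 ∨ arr (π v.1).2.1 w.2 v.2 at h3
    rw [hc] at h3
    exact h3

end perm

theorem measurableSet_pat (i : ℕ) : MeasurableSet {c : Baire | pat c i} := by
  have h3 : ∀ p : Prop, MeasurableSet {_c : Baire | p} := fun p => MeasurableSet.const p
  have h4 : MeasurableSet {c : Baire |
      c (Nat.unpair (i / 2 - 2)).1 = (Nat.unpair (i / 2 - 2)).2} := by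
    have h5 : Measurable fun c : Baire => c (Nat.unpair (i / 2 - 2)).1 :=
      measurable_pi_apply (Nat.unpair (i / 2 - 2)).1
    exact h5 (measurableSet_singleton (Nat.unpair (i / 2 - 2)).2)
  exact (h3 _).union ((h3 _).inter ((h3 _).inter h4))

theorem measurableSet_arr :
    MeasurableSet {q : Baire × (ℕ × Bool) × (ℕ × Bool) | arr q.1 q.2.1 q.2.2} := by
  have : {q : Baire × (ℕ × Bool) × (ℕ × Bool) | arr q.1 q.2.1 q.2.2} =
      ⋃ k : (ℕ × Bool) × (ℕ × Bool), ({c | arr c k.1 k.2} ×ˢ {k}) := by
    ext ⟨c, k⟩
    simp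
  rw [this]
  refine MeasurableSet.iUnion fun k => MeasurableSet.prod ?_ (measurableSet_singleton k)
  have h3 : ∀ p : Prop, MeasurableSet {_c : Baire | p} := fun p => MeasurableSet.const p
  exact (((h3 _).inter ((h3 _).inter (h3 _))).union
    ((h3 _).inter ((h3 _).inter ((h3 _).inter (measurableSet_pat _)))))

theorem measurableSet_Act {D : Set Blk} (hD : MeasurableSet D) : MeasurableSet (Act D) := by
  have h1 : MeasurableSet {v : V | v.2.2 = true → pat v.1.2.1 v.2.1} := by
    have : {v : V | v.2.2 = true → pat v.1.2.1 v.2.1} =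
        ⋃ k : ℕ × Bool, ({b : Blk | k.2 = true → pat b.2.1 k.1} ×ˢ {k}) := by
      ext ⟨b, k⟩
      simp
    rw [this]
    refine MeasurableSet.iUnion fun k => MeasurableSet.prod ?_ (measurableSet_singleton k)
    by_cases hk : k.2 = true
    · simp only [hk, true_imp_iff]
      exact (measurable_fst.comp measurable_snd) (measurableSet_pat k.1)
    · simp [hk]
  exact (measurable_fst hD).inter h1

theorem measurable_rep {D : Set Blk} (hD : MeasurableSet D) : Measurable (rep D) := by
  classical
  exact Measurable.ite (measurableSet_Act hD) (measurable_fst.prodMk measurable_const)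
    measurable_id

variable [MeasurableSpace α]

theorem measurableSet_grD {D : α → Set Blk} (hD : MeasurableSet {p : α × Blk | p.2 ∈ D p.1}) :
    MeasurableSet {p : α × (V × V) | p.2 ∈ gr (D p.1)} := by
  have m1 : Measurable fun p : α × (V × V) => p.2.1.1 :=
    measurable_fst.comp (measurable_fst.comp measurable_snd)
  have m2 : Measurable fun p : α × (V × V) => p.2.2.1 :=
    measurable_fst.comp (measurable_snd.comp measurable_snd)
  have m3 : Measurable fun p : α × (V × V) => p.2.1.2 :=
    measurable_snd.comp (measurable_fst.comp measurable_snd)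
  have m4 : Measurable fun p : α × (V × V) => p.2.2.2 :=
    measurable_snd.comp (measurable_snd.comp measurable_snd)
  have m5 : Measurable fun p : α × (V × V) => p.2.1.1.2.1 :=
    measurable_fst.comp (measurable_snd.comp m1)
  have s1 : MeasurableSet {p : α × (V × V) | p.2.1.1 = p.2.2.1} := measurableSet_eq_fun m1 m2
  have s2 : MeasurableSet {p : α × (V × V) | p.2.1.1 ∈ D p.1} := (measurable_fst.prodMk m1) hD
  have s3 : MeasurableSet {p : α × (V × V) | arr p.2.1.1.2.1 p.2.1.2 p.2.2.2} :=
    (m5.prodMk (m3.prodMk m4)) measurableSet_arr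
  have s4 : MeasurableSet {p : α × (V × V) | arr p.2.1.1.2.1 p.2.2.2 p.2.1.2} :=
    (m5.prodMk (m4.prodMk m3)) measurableSet_arr
  exact s1.inter (s2.inter (s3.union s4))

theorem measurableSet_GD {T : α → Baire → Set (List ℕ)}
    (hT : ∀ t, MeasurableSet {p : α × Baire | t ∈ T p.1 p.2}) :
    MeasurableSet {p : α × Blk | p.2 ∈ GD T p.1} := by
  have s1 : MeasurableSet {p : α × Blk | p.2.1 = true} :=
    (measurable_fst.comp measurable_snd) (measurableSet_singleton true)
  have m1 : Measurable fun p : α × Blk => ((p.1, p.2.2.1, p.2.2.2.1) : α × Baire × Z) := by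
    fun_prop
  exact s1.inter (m1 (measurableSet_F hT))

theorem measurableSet_D0 : MeasurableSet D0 := measurable_fst (measurableSet_singleton true)

section lower

variable {X : Type} [MeasurableSpace X] [StandardBorelSpace X]

/-- The graph transported to `X`. -/
def grX (e : V ≃ᵐ X) (D : Set Blk) : Set (X × X) := {p | (e.symm p.1, e.symm p.2) ∈ gr D}

omit [StandardBorelSpace X] in
theorem borelGraph_grX (e : V ≃ᵐ X) {D : Set Blk} (hD : MeasurableSet D) :
    BorelGraph (grX e D) := by
  refine ⟨?_, fun x hx => gr_irrefl _ _ hx, fun x x' h => gr_symm h⟩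
  have h1 := measurableSet_grD (α := Unit) (D := fun _ => D) (measurable_snd hD)
  have h2 : Measurable fun p : X × X => (((), (e.symm p.1, e.symm p.2)) : Unit × (V × V)) :=
    measurable_const.prodMk ((e.symm.measurable.comp measurable_fst).prodMk
      (e.symm.measurable.comp measurable_snd))
  exact h2 h1

omit [StandardBorelSpace X] in
/-- All degrees are at most three. -/
theorem degree_grX (e : V ≃ᵐ X) (D : Set Blk) (x : X) :
    {x' | (x, x') ∈ grX e D}.Finite ∧ {x' | (x, x') ∈ grX e D}.ncard ≤ 3 := by
  obtain ⟨w1, w2, w3, hw⟩ := gr_three D (e.symm x)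
  have hsub : {x' | (x, x') ∈ grX e D} ⊆ {e w1, e w2, e w3} := by
    intro x' hx'
    have h1 := hw (e.symm x') hx'
    simp only [mem_insert_iff, mem_singleton_iff]
    rcases h1 with h | h | h
    · left; rw [← h, e.apply_symm_apply]
    · right; left; rw [← h, e.apply_symm_apply]
    · right; right; rw [← h, e.apply_symm_apply]
  refine ⟨(toFinite _).subset hsub, (ncard_le_ncard hsub (toFinite _)).trans ?_⟩
  refine (ncard_insert_le _ _).trans ?_
  have := ncard_insert_le (e w2) {e w3}
  rw [ncard_singleton] at this
  omega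

omit [StandardBorelSpace X] in
theorem tameForest_grX (e : V ≃ᵐ X) {D : Set Blk} (hD : MeasurableSet D) :
    TameForest (grX e D) := by
  refine ⟨fun x => (degree_grX e D x).1, gr_acyclic D e.symm e.symm.injective, ?_⟩
  refine ⟨fun x => e (rep D (e.symm x)),
    e.measurable.comp ((measurable_rep hD).comp e.symm.measurable), fun x x' => ?_⟩
  rw [e.injective.eq_iff, rep_iff]
  constructor
  · intro h
    have key : ∀ v w : V, Relation.EqvGen (fun v w : V => (v, w) ∈ gr D) v w →
        Relation.EqvGen (fun x x' : X => (x, x') ∈ grX e D) (e v) (e w) := by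
      intro v w h
      induction h with
      | rel v w h =>
        refine Relation.EqvGen.rel _ _ ?_
        show (e.symm (e v), e.symm (e w)) ∈ gr D
        rw [e.symm_apply_apply, e.symm_apply_apply]
        exact h
      | refl v => exact Relation.EqvGen.refl _
      | symm v w _ ih => exact Relation.EqvGen.symm _ _ ih
      | trans u v w _ _ ih ih' => exact Relation.EqvGen.trans _ _ _ ih ih'
    have h1 := key _ _ h
    rw [e.apply_symm_apply, e.apply_symm_apply] at h1
    exact h1
  · intro h
    induction h with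
    | rel v w h => exact Relation.EqvGen.rel _ _ h
    | refl v => exact Relation.EqvGen.refl _
    | symm v w _ ih => exact Relation.EqvGen.symm _ _ ih
    | trans u v w _ _ ih ih' => exact Relation.EqvGen.trans _ _ _ ih ih'

omit [StandardBorelSpace X] in
theorem exists_codes {U : ℕ → Set (X × X)}
    (hU : (Prod.instMeasurableSpace : MeasurableSpace (X × X)) =
      MeasurableSpace.generateFrom (range U)) (e : V ≃ᵐ X) {D : α → Set Blk}
    (hD : MeasurableSet {p : α × Blk | p.2 ∈ D p.1}) :
    ∃ f : α → Baire, Measurable f ∧ ∀ a, IsCode U (f a) (grX e (D a)) := by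
  have h1 := measurableSet_grD hD
  have h2 : Measurable fun p : α × (X × X) =>
      ((p.1, (e.symm p.2.1, e.symm p.2.2)) : α × (V × V)) :=
    measurable_fst.prodMk ((e.symm.measurable.comp (measurable_fst.comp measurable_snd)).prodMk
      (e.symm.measurable.comp (measurable_snd.comp measurable_snd)))
  exact exists_code hU (h2 h1)

/-- The isomorphism class of the graph with the blocks `D0` is `Σ¹₂`-hard, and so is every class
of graphs between it and the class of the graphs into which it embeds. -/
theorem hard (e : V ≃ᵐ X) {U : ℕ → Set (X × X)}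
    (hU : (Prod.instMeasurableSpace : MeasurableSpace (X × X)) =
      MeasurableSpace.generateFrom (range U)) [TopologicalSpace α] [PolishSpace α] [BorelSpace α]
    {A : Set α} (hA : Sigma12 A) :
    ∃ f : α → Baire, Measurable f ∧ ∀ a, ∃ G : Set (X × X), IsCode U (f a) G ∧ BorelGraph G ∧
      TameForest G ∧ (∀ x, {x' | (x, x') ∈ G}.ncard ≤ 3) ∧ G ⊆ grX e D0 ∧
      (a ∈ A → BorelIso G (grX e D0)) ∧
      (a ∉ A → ¬ ∃ h : X → X, Measurable h ∧ Function.Injective h ∧
        ∀ x x', (x, x') ∈ grX e D0 → (h x, h x') ∈ G) := by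
  obtain ⟨P, hP, hAP⟩ := hA
  obtain ⟨T, hpc, hTm, hTP⟩ := exists_tree hP
  have mG := measurableSet_GD hTm
  have mG' : ∀ a, MeasurableSet (GD T a) := fun a => (measurable_const.prodMk measurable_id) mG
  obtain ⟨g, hg, hgc⟩ := exists_codes hU e mG
  refine ⟨g, hg, fun a => ⟨grX e (GD T a), hgc a, borelGraph_grX e (mG' a),
    tameForest_grX e (mG' a), fun x => (degree_grX e _ x).2,
    fun p hp => ⟨hp.1, hp.2.1.1, hp.2.2⟩, fun ha => ?_, fun ha => ?_⟩⟩
  · obtain ⟨y, hy⟩ := (hAP a).1 ha
    have hbr : ¬ ∃ z : ℕ → ℕ, ∀ n, (List.range n).map z ∈ T a y := by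
      rw [← hTP]
      exact fun hc => hc hy
    obtain ⟨u, hu, huF⟩ := unif (hpc a y) hbr
    obtain ⟨π, hπm, hπb, hπc, hπD⟩ := exists_perm (mG' a) hu huF
    let Q : V → V := fun v => (π v.1, v.2)
    have hQm : Measurable Q := (hπm.comp measurable_fst).prodMk measurable_snd
    have hQb : Function.Bijective Q := by
      constructor
      · intro v w h
        have h1 : (Q v).1 = (Q w).1 := congrArg Prod.fst h
        have h2 : (Q v).2 = (Q w).2 := congrArg Prod.snd h
        exact Prod.ext (hπb.injective h1) h2
      · rintro ⟨b, k⟩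
        obtain ⟨b', rfl⟩ := hπb.surjective b
        exact ⟨(b', k), rfl⟩
    refine ⟨fun x => e (Q (e.symm x)), e.measurable.comp (hQm.comp e.symm.measurable),
      e.bijective.comp (hQb.comp e.symm.bijective), fun x x' => ?_⟩
    show (e.symm x, e.symm x') ∈ gr (GD T a) ↔
      (e.symm (e (Q (e.symm x))), e.symm (e (Q (e.symm x')))) ∈ gr D0
    rw [e.symm_apply_apply, e.symm_apply_apply]
    exact gr_iff hπb.injective hπc hπD _ _
  · rintro ⟨f, hf, hfi, hfe⟩
    have hbr : ∀ y, ∃ z : ℕ → ℕ, ∀ n, (List.range n).map z ∈ T a y := by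
      intro y
      rw [← hTP]
      intro hy
      exact ha ((hAP a).2 ⟨y, hy⟩)
    apply no_unif hbr
    let f' : V → V := fun v => e.symm (f (e v))
    have hf'm : Measurable f' := e.symm.measurable.comp (hf.comp e.measurable)
    have hf'i : Function.Injective f' := e.symm.injective.comp (hfi.comp e.injective)
    have hf'e : ∀ v w, (v, w) ∈ gr D0 → (f' v, f' w) ∈ gr (GD T a) := by
      intro v w hvw
      have h1 := hfe (e v) (e w)
      simp only [grX, mem_ofPred_eq, e.symm_apply_apply] at h1
      exact h1 hvw
    let bb : Baire → Blk := fun c => (true, c, z0, fun _ => 0)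
    refine ⟨fun c => (f' (bb c, (0, false))).1.2.2.1, ?_, fun c => ?_⟩
    · have h1 : Measurable fun c : Baire => ((bb c, (0, false)) : V) :=
        (measurable_const.prodMk (measurable_id.prodMk measurable_const)).prodMk measurable_const
      exact measurable_fst.comp (measurable_snd.comp (measurable_snd.comp
        (measurable_fst.comp (hf'm.comp h1))))
    · obtain ⟨h1, h2⟩ := block_of_emb hf'i hf'e (b := bb c) rfl
      have h3 := h1.2
      rw [h2] at h3
      exact h3

end lower

end Pool.Agent.Y607.BI
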